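import Pool.Agent.W823.QT.Stm

/-!
Project QT (MP_26aa9e_pr), part SUML: the sum over a finite set of coordinates has the law of the
position.
-/

set_option autoImplicit false

namespace Pool.Agent.W577.QTSUML

open MeasureTheory Pool.Agent.W823.QT
open scoped ENNReal

theorem map_inj {ι X : Type} [MeasurableSpace X] (q : Measure X) [IsProbabilityMeasure q]
    (τ : ι → ι) (hτ : Function.Injective τ) :
    (Measure.infinitePi fun _ : ι => q).map (fun b : ι → X => fun i => b (τ i)) =
      Measure.infinitePi fun _ : ι => q := by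
  classical
  have hm : Measurable (fun b : ι → X => fun i => b (τ i)) :=
    measurable_pi_lambda _ fun i => measurable_pi_apply (τ i)
  apply Measure.eq_infinitePi
  intro s t ht
  rw [Measure.map_apply hm (MeasurableSet.pi s.countable_toSet fun i _ => ht i)]
  have h1 : (fun b : ι → X => fun i => b (τ i)) ⁻¹' (Set.pi s t) =
      Set.pi (s.map ⟨τ, hτ⟩ : Finset ι) (fun j => if h : ∃ i, τ i = j then t h.choose else Set.univ) := by
    have hc : ∀ i, (if h : ∃ i', τ i' = τ i then t h.choose else Set.univ) = t i := by
      intro i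
      have h : ∃ i', τ i' = τ i := ⟨i, rfl⟩
      rw [dif_pos h, hτ h.choose_spec]
    ext b
    simp only [Set.mem_preimage, Set.mem_pi, Finset.mem_coe, Finset.mem_map,
      Function.Embedding.coeFn_mk, forall_exists_index, and_imp, forall_apply_eq_imp_iff₂]
    constructor
    · intro hb i hi
      rw [hc i]
      exact hb i hi
    · intro hb i hi
      have := hb i hi
      rw [hc i] at this
      exact this
  have hc : ∀ i, (if h : ∃ i', τ i' = τ i then t h.choose else Set.univ) = t i := by
    intro i
    have h : ∃ i', τ i' = τ i := ⟨i, rfl⟩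
    rw [dif_pos h, hτ h.choose_spec]
  rw [h1, Measure.infinitePi_pi]
  · rw [Finset.prod_map]
    apply Finset.prod_congr rfl
    intro i _
    simp only [Function.Embedding.coeFn_mk]
    rw [hc i]
  · intro j hj
    rw [Finset.mem_map] at hj
    obtain ⟨i, hi, rfl⟩ := hj
    simp only [Function.Embedding.coeFn_mk]
    rw [hc i]
    exact ht i

/-- the enumeration of `s`, continued injectively -/
noncomputable def tau (s : Finset ℕ) (i : ℕ) : ℕ :=
  if h : i < s.card then s.orderEmbOfFin rfl ⟨i, h⟩ else s.sup id + 1 + i

theorem tau_inj (s : Finset ℕ) : Function.Injective (tau s) := by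
  have hle : ∀ i (h : i < s.card), (s.orderEmbOfFin rfl ⟨i, h⟩ : ℕ) ≤ s.sup id := by
    intro i h
    exact Finset.le_sup (f := id) (s.orderEmbOfFin_mem rfl ⟨i, h⟩)
  intro i j hij
  unfold tau at hij
  split_ifs at hij with h1 h2 h2
  · have := (s.orderEmbOfFin rfl).injective hij
    simpa using this
  · have := hle i h1
    omega
  · have := hle j h2
    omega
  · omega

theorem sum_tau {d : ℕ} (s : Finset ℕ) (b : ℕ → Fin d → ℤ) :
    ∑ i ∈ s, b i = pos (fun i => b (tau s i)) s.card := by
  unfold pos
  rw [Finset.sum_range]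
  have h1 : ∀ i : Fin s.card, b (tau s i) = b (s.orderEmbOfFin rfl i) := by
    intro i
    unfold tau
    rw [dif_pos i.2]
  rw [Finset.sum_congr rfl fun i _ => h1 i]
  conv_lhs => rw [← Finset.image_orderEmbOfFin_univ s rfl]
  rw [Finset.sum_image]
  intro i _ j _ hij
  exact (s.orderEmbOfFin rfl).injective hij

theorem main : SUML_T := by
  intro d q _ s ψ
  have hψ : Measurable ψ := measurable_of_countable ψ
  have hpos : Measurable fun b : ℕ → Fin d → ℤ => pos b s.card := by
    unfold pos
    exact Finset.measurable_sum _ fun i _ => measurable_pi_apply i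
  have hm : Measurable (fun b : ℕ → Fin d → ℤ => fun i => b (tau s i)) :=
    measurable_pi_lambda _ fun i => measurable_pi_apply (tau s i)
  have h1 := map_inj q (tau s) (tau_inj s)
  calc ∫⁻ b, ψ (∑ i ∈ s, b i) ∂(iid q)
      = ∫⁻ b, ψ (pos (fun i => b (tau s i)) s.card) ∂(iid q) := by
        congr 1
        funext b
        rw [sum_tau]
    _ = ∫⁻ b, ψ (pos b s.card) ∂((iid q).map (fun b : ℕ → Fin d → ℤ => fun i => b (tau s i))) := by
        exact (lintegral_map (f := fun b : ℕ → Fin d → ℤ => ψ (pos b s.card))
          (hψ.comp hpos) hm).symm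
    _ = ∫⁻ b, ψ (pos b s.card) ∂(iid q) := by
        unfold iid
        rw [h1]

end Pool.Agent.W577.QTSUML

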