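import Pool.Agent.W518.PR.Stm

set_option autoImplicit false

namespace Pool.Agent.W577.PRFun

open Pool.Agent.H907R3 Pool.Agent.W518.PR ExteriorAlgebra

/-- the indices that contribute -/
def good (i : Idx) : Prop := i.2 = 1 ∧ ∀ k, (3 : ℤ) ∣ i.1 k - 2

/-- the exponents -/
noncomputable def expo (i : Idx) : Fin 6 →₀ ℕ :=
  Finsupp.equivFunOnFinite.symm fun k => ((i.1 k - 2) / 3).toNat

open Classical in
/-- the coefficient functional -/
noncomputable def cc : K →ₗ[ℂ] MP :=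
  (Finsupp.lsum ℂ (fun i : Idx => if good i then
    LinearMap.toSpanSingleton ℂ MP (MvPolynomial.monomial (expo i) 1) else 0)) ∘ₗ coord

open Classical in
lemma cc_nf (i : Idx) : cc (nf i) =
    if good i then (MvPolynomial.monomial (expo i) (1 : ℂ) : MP) else 0 := by
  simp only [cc, LinearMap.comp_apply, coord_nf, Finsupp.lsum_single]
  split_ifs with h
  · rw [LinearMap.toSpanSingleton_apply, one_smul]
  · rfl

lemma cc_X (j : Fin 6) {f : K} (hf : f ∈ V ∅ Set.univ) :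
    cc (x j ^ 3 * f) = MvPolynomial.X j * cc f := by
  refine V_induction (fun f => cc (x j ^ 3 * f) = MvPolynomial.X j * cc f) ?_ ?_ ?_ ?_ hf
  · intro i hi
    have h1 : x j ^ 3 * nf i = nf (Pi.single j 3 + i.1, i.2) := by
      have h2 := mon_single j 3
      have h3 : x j ^ (3 : ℤ) = x j ^ 3 := by norm_cast
      rw [← h3, ← h2, nf, mon_mul, zero_add, nf]
    rw [h1, cc_nf, cc_nf]
    have hg : good (Pi.single j 3 + i.1, i.2) ↔ good i := by
      refine and_congr_right fun _ => forall_congr' fun k => ?_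
      have : (Pi.single j (3 : ℤ) : Fin 6 → ℤ) k = 3 ∨ (Pi.single j (3 : ℤ) : Fin 6 → ℤ) k = 0 := by
        by_cases h : k = j
        · left; rw [h, Pi.single_eq_same]
        · right; rw [Pi.single_eq_of_ne h]
      simp only [Pi.add_apply]
      rcases this with h | h <;> rw [h] <;> omega
    by_cases h : good i
    · rw [if_pos (hg.2 h), if_pos h]
      have he : expo (Pi.single j 3 + i.1, i.2) = Finsupp.single j 1 + expo i := by
        ext k
        simp only [expo, Finsupp.equivFunOnFinite_symm_apply_apply, Pi.add_apply,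
          Finsupp.add_apply]
        have h0 := hi.1 k (Finset.notMem_empty k)
        have h2 := h.2 k
        by_cases hk : k = j
        · subst hk
          rw [Pi.single_eq_same, Finsupp.single_eq_same]
          omega
        · rw [Pi.single_eq_of_ne hk, Finsupp.single_eq_of_ne hk]
          omega
      rw [he, MvPolynomial.X, MvPolynomial.monomial_mul, one_mul]
    · rw [if_neg (fun hh => h (hg.1 hh)), if_neg h, mul_zero]
  · simp
  · intro f g hf hg
    rw [mul_add, map_add, map_add, hf, hg, mul_add]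
  · intro c f hf
    rw [mul_smul_comm, map_smul, map_smul, hf, mul_smul_comm]

lemma cc_cub (p : MP) {f : K} (hf : f ∈ V ∅ Set.univ) : cc (cub p * f) = p * cc f := by
  induction p using MvPolynomial.induction_on generalizing f with
  | C a =>
    rw [cub, MvPolynomial.aeval_C, ← Algebra.smul_def, map_smul, MvPolynomial.smul_eq_C_mul]
  | add p q hp hq => rw [map_add, add_mul, map_add, hp hf, hq hf, add_mul]
  | mul_X p k hp =>
    have h : cub (MvPolynomial.X k) = x k ^ 3 := by rw [cub, MvPolynomial.aeval_X]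
    have h2 : x k ^ 3 * f ∈ V ∅ Set.univ :=
      V_mul (Finset.Subset.refl _) (Finset.Subset.refl _) (fun _ _ _ _ => Set.mem_univ _)
        (cube_mem k) hf
    rw [map_mul cub, h, mul_assoc, hp h2, cc_X k hf, mul_assoc]

/-- the functional on the exterior algebra -/
noncomputable def co (i : Fin 6) : Lam →ₗ[K] K :=
  (algebraMapInv (R := K) (M := Fin 7 → K)).toLinearMap ∘ₗ ctr i

lemma co_apply (i : Fin 6) (t : Lam) : co i t = algebraMapInv (ctr i t) := rfl

lemma inv_smul_one (f : K) : algebraMapInv (R := K) (M := Fin 7 → K) (f • (1 : Lam)) = f := by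
  rw [map_smul, map_one, smul_eq_mul, mul_one]

lemma T0 {I : Finset (Fin 6)} {Γ : Set ℤ} {ω : Lam} (hω : ω ∈ T 0 I Γ) :
    ω = (algebraMapInv (R := K) (M := Fin 7 → K) ω) • (1 : Lam) ∧
      algebraMapInv (R := K) (M := Fin 7 → K) ω ∈ V I Γ := by
  constructor
  · let φ : Lam →+ Lam := AddMonoidHom.id Lam
    let ψ : Lam →+ Lam :=
      ((LinearMap.toSpanSingleton K Lam (1 : Lam)) ∘ₗ
        (algebraMapInv (R := K) (M := Fin 7 → K)).toLinearMap).toAddMonoidHom
    have h := T_eq φ ψ (I := I) (Γ := Γ) (p := 0) (by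
      intro f _ k
      change f • eM 0 k = (algebraMapInv (R := K) (M := Fin 7 → K) (f • eM 0 k)) • (1 : Lam)
      rw [eM_zero, inv_smul_one]) hω
    exact h
  · exact T_map ((algebraMapInv (R := K) (M := Fin 7 → K)).toLinearMap.toAddMonoidHom)
      (V I Γ).toAddSubgroup (by
        intro f hf k
        change algebraMapInv (R := K) (M := Fin 7 → K) (f • eM 0 k) ∈ V I Γ
        rw [eM_zero, inv_smul_one]
        exact hf) hω

lemma ctr_one (i : Fin 6) (g : K) : ctr i (g • (1 : Lam)) = 0 := by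
  rw [map_smul, ctr, ctrG_one, smul_zero]

lemma ctr_gr_one (i : Fin 6) (g : K) : ctr i (gr * (g • (1 : Lam))) = g • (1 : Lam) := by
  rw [ctr_gr, ctr_one, mul_zero, sub_zero]

lemma co_gr (i : Fin 6) (g : K) : co i (gr * (g • (1 : Lam))) = g := by
  rw [co_apply, ctr_gr_one, inv_smul_one]

lemma co_mem (i : Fin 6) {t : Lam} (ht : t ∈ Z 1 ∅ (Gm 2)) :
    co i t ∈ V {i} (Gm 1) ∧ t = gr * (co i t • (1 : Lam)) := by
  have h1 := mem_Z.1 ht
  have hI : insert i (∅ : Finset (Fin 6)) ⊆ {i} := by simp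
  have h2 : ctr i t ∈ T 0 {i} (Gm 1) := by
    refine ctr_mem (p := 0) (I := ∅) (J := {i}) (Γ := Gm 2) (Γ' := Gm 1) (i := i) hI ?_ h1.1
    intro d hd
    have h3 : (2 : ℤ) ≤ d := hd.1
    have h4 : (3 : ℤ) ∣ d - 2 := hd.2
    exact ⟨by omega, by omega⟩
  have h3 := T0 h2
  refine ⟨h3.2, ?_⟩
  have h4 := ctr_gr i t
  rw [h1.2, map_zero] at h4
  rw [co_apply, ← h3.1]
  exact sub_eq_zero.1 h4.symm

lemma co_mem' {t : Lam} (ht : t ∈ Z 1 ∅ (Gm 2)) : co 0 t ∈ V ∅ Set.univ := by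
  obtain ⟨a0, b0⟩ := co_mem 0 ht
  obtain ⟨a1, b1⟩ := co_mem 1 ht
  have h : co 1 t = co 0 t := by
    have h1 := co_gr 0 (co 1 t)
    rw [← b1] at h1
    exact h1.symm
  rw [h] at a1
  have h2 := V_inter a0 a1
  have h3 : ({0} : Finset (Fin 6)) ∩ {1} = ∅ := by decide
  rw [h3] at h2
  exact V_mono (Finset.Subset.refl _) (Set.subset_univ _) h2

lemma ll_add (u v : Lam) : cc (co 0 (u + v)) = cc (co 0 u) + cc (co 0 v) := by
  rw [map_add, map_add]

lemma ll_smul (p : MP) (u : Lam) (hu : u ∈ Z 1 ∅ (Gm 2)) :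
    cc (co 0 (cub p • u)) = p * cc (co 0 u) := by
  rw [map_smul, smul_eq_mul]
  exact cc_cub p (co_mem' hu)

/-- the functional -/
noncomputable def ll : ZP 1 2 ∅ →ₗ[MP] MP where
  toFun t := cc (co 0 (@id Lam t.1))
  map_add' a b := ll_add (@id Lam a.1) (@id Lam b.1)
  map_smul' p a := ll_smul p (@id Lam a.1) a.2

/-- the coefficient of the section -/
noncomputable def ff : K := mon (fun _ => 2) 1

lemma ff_mem : ff ∈ V ∅ (Gm 1) := by
  apply mon_mem
  · intro k _
    norm_num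
  · exact ⟨by simp, by simp⟩

lemma cc_ff : cc ff = 1 := by
  have h : ff = nf (fun _ => 2, 1) := rfl
  rw [h, cc_nf, if_pos]
  · have : expo (fun _ => 2, 1) = 0 := by
      ext k
      simp [expo]
    rw [this]
    rfl
  · exact ⟨rfl, fun _ => by norm_num⟩

lemma s_mem : gr * (ff • (1 : Lam)) ∈ Z 1 ∅ (Gm 2) := by
  refine mem_Z.2 ⟨gr_mem (Γ := Gm 1) ?_ ?_, gr_gr _⟩
  · intro d hd
    have h3 : (1 : ℤ) ≤ d := hd.1
    have h4 : (3 : ℤ) ∣ d - 1 := hd.2
    exact ⟨by omega, by omega⟩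
  · rw [← eM_zero (fun a => Fin.elim0 a)]
    exact gen_mem ff_mem _

/-- the section -/
noncomputable def ss : ZP 1 2 ∅ := ⟨gr * (ff • (1 : Lam)), s_mem⟩

lemma ll_ss : ll ss = 1 := by
  change cc (co 0 (gr * (ff • (1 : Lam)))) = 1
  rw [co_gr, cc_ff]

/-- exponents -/
def ea (j : Fin 6) : Fin 6 → ℤ := fun k => if k = j then 0 else 2

/-- exponents -/
def eb (j : Fin 6) : Fin 6 → ℤ := fun k => if k = j ∨ k = par j then 0 else 2

lemma ea_ok (j : Fin 6) : (∀ k, 0 ≤ ea j k) ∧ ∑ k, ea j k + ((1 : ℕ) : ℤ) ∈ Gm 2 := by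
  have h1 : ∀ j : Fin 6, (∀ k, 0 ≤ ea j k) ∧ ∑ k, ea j k = 10 := by decide
  refine ⟨(h1 j).1, ?_⟩
  rw [(h1 j).2]
  exact ⟨by norm_num, by norm_num⟩

lemma eb_ok (j : Fin 6) : (∀ k, 0 ≤ eb j k) ∧ ∑ k, eb j k + ((0 : ℕ) : ℤ) ∈ Gm 2 := by
  have h1 : ∀ j : Fin 6, (∀ k, 0 ≤ eb j k) ∧ ∑ k, eb j k = 8 := by decide
  refine ⟨(h1 j).1, ?_⟩
  rw [(h1 j).2]
  exact ⟨by norm_num, by norm_num⟩

/-- three of the indices -/
def inc : Fin 3 → Fin 6 := ![0, 1, 2]

noncomputable def tc : Fin 9 → Lam :=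
  Fin.append (m := 6) (n := 3) (fun j => mon (ea (par j)) 1 • eM 1 (fun _ => j.castSucc))
    (fun m => mon (eb (inc m)) 0 • eM 1 (fun _ => Fin.last 6))

lemma tc_mem (j : Fin 9) : tc j ∈ T 1 ∅ (Gm 2) := by
  revert j
  change ∀ j : Fin (6 + 3), _
  intro j
  refine Fin.addCases (fun i => ?_) (fun i => ?_) j
  · rw [tc, Fin.append_left]
    exact gen_mem (mon_mem (fun k _ => (ea_ok _).1 k) (ea_ok _).2) _
  · rw [tc, Fin.append_right]
    exact gen_mem (mon_mem (fun k _ => (eb_ok _).1 k) (eb_ok _).2) _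

noncomputable def tt (j : Fin 9) : TP 1 2 ∅ := ⟨tc j, tc_mem j⟩

noncomputable def pp : Fin 9 → MP :=
  Fin.append (m := 6) (n := 3) (fun j => MvPolynomial.X (par j))
    (fun m => MvPolynomial.C (-2) * (MvPolynomial.X (inc m) * MvPolynomial.X (par (inc m))))

lemma pp_eval (j : Fin 9) : MvPolynomial.eval (fun _ => (0 : ℂ)) (pp j) = 0 := by
  revert j
  change ∀ j : Fin (6 + 3), _
  intro j
  refine Fin.addCases (fun i => ?_) (fun i => ?_) j
  · rw [pp, Fin.append_left]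
    simp
  · rw [pp, Fin.append_right]
    simp

lemma cub_X (k : Fin 6) : cub (MvPolynomial.X k) = x k ^ 3 := by rw [cub, MvPolynomial.aeval_X]

lemma x_ff (j : Fin 6) : x (par j) * ff = x (par j) ^ 3 * mon (ea (par j)) 1 := by
  have h1 : ∀ k : Fin 6, ∀ n : ℤ, x k ^ n = mon (Pi.single k n) 0 := fun k n => (mon_single k n).symm
  have h2 : x (par j) = x (par j) ^ (1 : ℤ) := (zpow_one _).symm
  have h3 : x (par j) ^ 3 = x (par j) ^ (3 : ℤ) := by norm_cast
  rw [h3]
  conv_lhs => rw [h2]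
  rw [h1, h1, ff, mon_mul, mon_mul]
  congr 1
  funext k
  simp only [Pi.add_apply, ea]
  by_cases hk : k = par j
  · rw [hk, Pi.single_eq_same, Pi.single_eq_same, if_pos rfl]
    norm_num
  · rw [Pi.single_eq_of_ne hk, Pi.single_eq_of_ne hk, if_neg hk]

lemma mon_two (j : Fin 6) :
    x j * x (par j) * mon (fun _ => 2) 0 = (x j ^ 3 * x (par j) ^ 3) * mon (eb j) 0 := by
  have h1 : ∀ k : Fin 6, ∀ n : ℤ, x k ^ n = mon (Pi.single k n) 0 := fun k n => (mon_single k n).symm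
  have h2 : ∀ k : Fin 6, x k = mon (Pi.single k 1) 0 := fun k => by rw [← h1, zpow_one]
  have h3 : ∀ k : Fin 6, x k ^ 3 = mon (Pi.single k 3) 0 := fun k => by rw [← h1]; norm_cast
  rw [h3, h3, h2 j, h2 (par j), mon_mul, mon_mul, mon_mul, mon_mul]
  congr 1
  have h4 : ∀ j k : Fin 6, (Pi.single j (1 : ℤ) + Pi.single (par j) 1 + fun _ => (2 : ℤ) : Fin 6 → ℤ) k
      = (Pi.single j (3 : ℤ) + Pi.single (par j) 3 + eb j : Fin 6 → ℤ) k := by decide
  funext k
  exact h4 j k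

lemma z_ff : 2 * z * ff = ∑ m : Fin 3,
    (-2 : K) * ((x (inc m) ^ 3 * x (par (inc m)) ^ 3) * mon (eb (inc m)) 0) := by
  have h1 : ff = z * mon (fun _ => 2) 0 := by
    simp only [ff, mon]
    ring
  have h2 : 2 * z * ff = 2 * (z ^ 2) * mon (fun _ => 2) 0 := by
    rw [h1]
    ring
  rw [h2, z_sq]
  simp only [← mon_two]
  rw [Fin.sum_univ_three]
  have e0 : inc 0 = 0 := rfl
  have e1 : inc 1 = 1 := rfl
  have e2 : inc 2 = 2 := rfl
  have p0 : par 0 = 3 := rfl
  have p1 : par 1 = 4 := rfl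
  have p2 : par 2 = 5 := rfl
  rw [e0, e1, e2, p0, p1, p2]
  ring

lemma eM_one (l : Fin 7) : (eM 1 (fun _ => l) : Lam) = ι K (Pi.single l 1) := by
  rw [eM_succ, eM_zero, mul_one]

lemma rel : (gr * (ff • (1 : Lam)) : Lam) = ∑ j : Fin 9, (cub (pp j) • tc j : Lam) := by
  have h9 : (∑ j : Fin 9, (cub (pp j) • tc j : Lam)) =
      ∑ j : Fin 6, (cub (MvPolynomial.X (par j)) •
        (mon (ea (par j)) 1 • eM 1 (fun _ => j.castSucc) : Lam) : Lam) +
      ∑ m : Fin 3, (cub (MvPolynomial.C (-2) *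
          (MvPolynomial.X (inc m) * MvPolynomial.X (par (inc m)))) •
        (mon (eb (inc m)) 0 • eM 1 (fun _ => Fin.last 6) : Lam) : Lam) := by
    refine (Fin.sum_univ_add (a := 6) (b := 3) _).trans ?_
    simp only [pp, tc, Fin.append_left, Fin.append_right]
  rw [h9, gr_eq, Finset.sum_mul, Fin.sum_univ_castSucc]
  congr 1
  · refine Finset.sum_congr rfl fun j _ => ?_
    rw [smul_mul_assoc, mul_smul_comm, mul_one, smul_smul, grad_castSucc, x_ff, cub_X,
      smul_smul, eM_one]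
  · rw [smul_mul_assoc, mul_smul_comm, mul_one, smul_smul]
    have h1 : grad (Fin.last 6) * ff = 2 * z * ff := rfl
    rw [h1, z_ff, Finset.sum_smul]
    refine Finset.sum_congr rfl fun m _ => ?_
    rw [map_mul cub, map_mul cub, cub_X, cub_X]
    have h2 : cub (MvPolynomial.C (-2)) = (-2 : K) := by
      rw [cub, MvPolynomial.aeval_C, map_neg, map_ofNat]
    rw [h2, smul_smul, eM_one, ← mul_assoc]

theorem main : S_fun :=
  ⟨ll, ss, tt, pp, ll_ss, pp_eval, rel⟩

end Pool.Agent.W577.PRFun
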