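import Pool.Agent.W894.HT.MDefs

/-! Project HM (helper894), task HM-TG. -/

set_option autoImplicit false

namespace Pool.Agent.W577.HMTg

open Pool.Agent.W894.HT

/-! ### arithmetic of the positions -/

theorem bj_eq {s j i : ℕ} (h1 : 1 ≤ i) (h2 : i ≤ s) : bj s (3 + s * j + i) = j := by
  unfold bj
  have e : 3 + s * j + i - 4 = (i - 1) + s * j := by omega
  rw [e, Nat.add_mul_div_left _ _ (by omega : 0 < s), Nat.div_eq_of_lt (by omega)]
  simp

theorem ofs_eq {s j i : ℕ} (h1 : 1 ≤ i) (h2 : i ≤ s) : ofs s (3 + s * j + i) = i := by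
  unfold ofs
  rw [bj_eq h1 h2]
  omega

theorem pos_eq {s p : ℕ} (hp : 4 ≤ p) : p = 3 + s * bj s p + ofs s p := by
  unfold ofs bj
  have := Nat.mul_div_le (p - 4) s
  omega

theorem vj_eq (s j : ℕ) : vj s j = 3 + s * j + s := by
  unfold vj
  ring

theorem ix_none {s j i : ℕ} (h1 : 1 ≤ i) (h2 : i < s) : ix s (3 + s * j + i) = none := by
  unfold ix
  rw [ofs_eq h1 h2.le, if_neg (by omega), if_neg (by omega), if_neg (by omega)]

theorem ix_vj {s : ℕ} (hs : 2 ≤ s) (j : ℕ) : ix s (vj s j) = some (j + 2) := by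
  rw [vj_eq]
  unfold ix
  rw [ofs_eq (by omega) le_rfl, bj_eq (by omega) le_rfl, if_neg (by omega), if_neg (by omega),
    if_pos ⟨by omega, rfl⟩]

theorem ix_ipos {s : ℕ} (hs : 2 ≤ s) (i : ℕ) : ix s (ipos s i) = some i := by
  match i with
  | 0 => simp [ix, ipos]
  | 1 => simp [ix, ipos]
  | j + 2 => exact ix_vj hs j

theorem ipos_lt {s : ℕ} (hs : 2 ≤ s) : StrictMono (ipos s) := by
  refine strictMono_nat_of_lt_succ fun i => ?_
  match i with
  | 0 => simp [ipos]
  | 1 =>
    simp only [ipos, vj]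
    omega
  | j + 2 =>
    simp only [ipos, vj]
    have : s * (j + 1 + 1) = s * (j + 1) + s := by ring
    omega

theorem mem_blk {s j y : ℕ} : y ∈ blk s j ↔ ∃ i, 2 ≤ i ∧ i < s ∧ y = 3 + s * j + i := by
  unfold blk
  rw [List.mem_range'_1]
  constructor
  · rintro ⟨h1, h2⟩
    exact ⟨y - 3 - s * j, by omega, by omega, by omega⟩
  · rintro ⟨i, h1, h2, rfl⟩
    omega

section
variable {s : ℕ} {Fi ext : ℕ → ℕ → Bool}

theorem exO_none_left (o : Option ℕ) : exO ext none o = false := by
  cases o <;> rfl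

theorem exO_none_right (o : Option ℕ) : exO ext o none = false := by
  cases o <;> rfl

theorem F_symm (hFi : FiOk s Fi) (he : ∀ i j, ext i j = ext j i) (p q : ℕ) :
    Fg s Fi ext p q = Fg s Fi ext q p := by
  unfold Fg
  have h1 : exO ext (ix s p) (ix s q) = exO ext (ix s q) (ix s p) := by
    cases ix s p <;> cases ix s q <;> simp [exO, he]
  rw [h1, hFi.1 (ofs s p)]
  congr 1
  have h2 : decide (bj s p = bj s q) = decide (bj s q = bj s p) := by
    simp only [eq_comm]
  rw [h2, Bool.and_comm (decide (4 ≤ p))]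

/-- the positions without reversed pairs -/
theorem F_low {z : ℕ} (hz : z = 0 ∨ z = 2) (u : ℕ) : Fg s Fi ext z u = false := by
  unfold Fg
  have h1 : ix s z = none := by
    unfold ix
    rw [if_neg (by omega), if_neg (by omega), if_neg (by omega)]
  have h2 : ¬ 4 ≤ z := by omega
  rw [h1, exO_none_left]
  simp [h2]

theorem F_one (hs : 2 ≤ s) (hFi : FiOk s Fi) (j u : ℕ) :
    Fg s Fi ext (3 + s * j + 1) u = false := by
  unfold Fg
  rw [ix_none le_rfl (by omega), exO_none_left, ofs_eq le_rfl (by omega)]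
  have h1 : Fi 1 (ofs s u) = false := by
    rw [← Bool.not_eq_true]
    intro h
    have := (hFi.2 _ _ h).1
    omega
  rw [h1]
  simp

theorem F_in {j i u : ℕ} (h1 : 1 ≤ i) (h2 : i < s) (hF : Fg s Fi ext (3 + s * j + i) u = true) :
    4 ≤ u ∧ bj s u = j ∧ Fi i (ofs s u) = true := by
  unfold Fg at hF
  rw [ix_none h1 h2, exO_none_left, ofs_eq h1 h2.le, bj_eq h1 h2.le] at hF
  simp only [Bool.false_or, Bool.and_eq_true, decide_eq_true_eq] at hF
  exact ⟨hF.1.1.2, hF.1.2.symm, hF.2⟩

theorem F_out (hFi : FiOk s Fi) {j i u : ℕ} (h1 : 2 ≤ i) (h2 : i < s) (hu : u ∉ blk s j)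
    (hu' : u ≠ vj s j) : Fg s Fi ext (3 + s * j + i) u = false := by
  rw [← Bool.not_eq_true]
  intro h
  obtain ⟨h3, h4, h5⟩ := F_in (by omega) h2 h
  have h6 := (hFi.2 _ _ h5).2.2
  have h7 := pos_eq (s := s) h3
  rw [h4] at h7
  rcases Nat.lt_or_ge (ofs s u) s with h8 | h8
  · exact hu (mem_blk.2 ⟨ofs s u, h6.1, h8, h7⟩)
  · apply hu'
    rw [vj_eq, h7]
    have : ofs s (3 + s * j + ofs s u) = ofs s u := by rw [← h7]
    omega

theorem F_block {j i i' : ℕ} (h1 : 2 ≤ i) (h2 : i ≤ s) (h1' : 2 ≤ i') (h2' : i' ≤ s)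
    (h : i ≠ s ∨ i' ≠ s) : Fg s Fi ext (3 + s * j + i) (3 + s * j + i') = Fi i i' := by
  unfold Fg
  have h3 : exO ext (ix s (3 + s * j + i)) (ix s (3 + s * j + i')) = false := by
    rcases h with h | h
    · rw [ix_none (by omega) (by omega : i < s), exO_none_left]
    · rw [ix_none (by omega) (by omega : i' < s), exO_none_right]
  rw [h3, ofs_eq (by omega) h2, ofs_eq (by omega) h2', bj_eq (by omega) h2, bj_eq (by omega) h2']
  have h4 : 4 ≤ 3 + s * j + i := by omega
  have h5 : 4 ≤ 3 + s * j + i' := by omega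
  simp [h4, h5]

theorem F_ipos (hs : 2 ≤ s) (hFi : FiOk s Fi) (i i' : ℕ) :
    Fg s Fi ext (ipos s i) (ipos s i') = ext i i' := by
  unfold Fg
  rw [ix_ipos hs, ix_ipos hs]
  have h1 : (decide (4 ≤ ipos s i) && decide (4 ≤ ipos s i') &&
      decide (bj s (ipos s i) = bj s (ipos s i')) && Fi (ofs s (ipos s i)) (ofs s (ipos s i'))) =
      false := by
    rw [← Bool.not_eq_true]
    intro h
    simp only [Bool.and_eq_true, decide_eq_true_eq] at h
    obtain ⟨⟨⟨h2, h3⟩, h4⟩, h5⟩ := h
    match i, i', h2, h3, h4, h5 with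
    | 0, _, h2, _, _, _ => simp [ipos] at h2
    | 1, _, h2, _, _, _ => simp [ipos] at h2
    | _, 0, _, h3, _, _ => simp [ipos] at h3
    | _, 1, _, h3, _, _ => simp [ipos] at h3
    | j + 2, j' + 2, h2, h3, h4, h5 =>
      simp only [ipos, vj_eq] at h5
      rw [ofs_eq (by omega) le_rfl, ofs_eq (by omega) le_rfl] at h5
      exact (hFi.2 _ _ h5).2.2.2.2 rfl
  rw [h1, Bool.or_false]
  rfl

end

/-! ### the weights -/

section
variable {A : Type} [CommRing A]

theorem phi_false {F : ℕ → ℕ → Bool} {u v : ℕ} (h : F u v = false) : (phi F u v : A) = 0 := by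
  unfold phi
  rw [h]
  simp

theorem blw {s : ℕ} {Fi ext : ℕ → ℕ → Bool} (m : ℕ) (hFi : FiOk s Fi)
    (he : ∀ i j, ext i j = ext j i) : BLw (A := A) s m (phi Fi) (phi (Fg s Fi ext)) := by
  constructor
  · intro j _ y hy u hu hu'
    obtain ⟨i, h1, h2, rfl⟩ := mem_blk.1 hy
    have h3 := F_out (ext := ext) hFi h1 h2 hu hu'
    exact ⟨phi_false (by rw [F_symm hFi he]; exact h3), phi_false h3⟩
  · intro j _ i i' h1 h2 h1' h2' h
    unfold phi
    rw [F_block h1 h2 h1' h2' h]
    have h3 : (3 + s * j + i < 3 + s * j + i') = (i < i') := by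
      apply propext
      omega
    simp only [h3]

theorem wtg_map {N N' : Type} (φ : N' → N' → A) (f : N → N') (e : N) (l : List N) (x : N) :
    wtg φ (f e) (f x) (l.map f) = wtg (fun u v => φ (f u) (f v)) e x l := by
  induction l generalizing x with
  | nil => rfl
  | cons v l ih =>
    rw [List.map_cons, wtg, wtg, ih]

theorem PQ_map {N N' : Type} (a b : A) (φ : N' → N' → A) (f : N → N') (x e : N) (V : List N) :
    PQ a b φ (f x) (f e) (V.map f) = PQ a b (fun u v => φ (f u) (f v)) x e V := by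
  unfold PQ
  rw [List.sublists'_map, List.map_map]
  refine congrArg List.sum (List.map_congr_left fun S _ => ?_)
  rw [Function.comp_apply, ← List.map_permutations', List.map_map]
  refine congrArg List.sum (List.map_congr_left fun l _ => ?_)
  rw [Function.comp_apply, wtg_map, List.length_map, List.length_map]

theorem Vl_eq (s m : ℕ) : Vl s m = (Ix m).map (ipos s) := by
  induction m with
  | zero => rfl
  | succ m ih =>
    rw [Vl, Ix, List.map_cons, ih]
    rfl

theorem PQ_eq {s : ℕ} (hs : 2 ≤ s) {Fi ext : ℕ → ℕ → Bool} (hFi : FiOk s Fi) (m : ℕ) (a b : A) :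
    PQ a b (phi (Fg s Fi ext)) 3 1 (Vl s m) = PQ a b (phi ext) 1 0 (Ix m) := by
  rw [Vl_eq]
  have h1 := PQ_map a b (phi (A := A) (Fg s Fi ext)) (ipos s) 1 0 (Ix m)
  have h2 : (fun u v => (phi (Fg s Fi ext) (ipos s u) (ipos s v) : A)) = phi ext := by
    funext u v
    unfold phi
    rw [F_ipos hs hFi]
    simp only [(ipos_lt hs).lt_iff_lt]
  rw [h2] at h1
  exact h1

end

/-! ### the positions -/

/-- the spacers -/
def Zg (s : ℕ) : ℕ → List ℕ
  | 0 => [2]
  | m + 1 => (3 + s * m + 1) :: Zg s m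

theorem Zg_mem {s m z : ℕ} (h : z ∈ Zg s m) : z = 2 ∨ ∃ j, z = 3 + s * j + 1 := by
  induction m with
  | zero =>
    left
    simpa [Zg] using h
  | succ m ih =>
    rw [Zg, List.mem_cons] at h
    rcases h with h | h
    · exact Or.inr ⟨m, h⟩
    · exact ih h

theorem range_step {s : ℕ} (hs : 2 ≤ s) (m : ℕ) : List.range' 1 (3 + s * (m + 1)) =
    List.range' 1 (3 + s * m) ++ ((3 + s * m + 1) :: (blk s m ++ [vj s m])) := by
  have h1 : 3 + s * (m + 1) = (3 + s * m) + s := by ring
  rw [h1, ← List.range'_append_1]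
  congr 1
  obtain ⟨t, rfl⟩ : ∃ t, s = t + 2 := ⟨s - 2, by omega⟩
  unfold blk
  rw [vj_eq]
  have h2 : 1 + (3 + (t + 2) * m) = 3 + (t + 2) * m + 1 := by ring
  rw [h2, show t + 2 = (t + 1) + 1 from rfl, List.range'_succ]
  congr 1
  have h3 : t + 1 + 1 - 2 = t := by omega
  rw [h3, ← List.range'_append_1 (s := 3 + (t + 1 + 1) * m + 1 + 1) (m := t) (n := 1)]
  congr 1
  rw [List.range'_one]
  congr 1
  omega

theorem permR {s : ℕ} (hs : 2 ≤ s) (m : ℕ) :
    (Zg s m ++ (Bl s m ++ [3, 1])).Perm (List.range' 1 (3 + s * m)) := by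
  induction m with
  | zero =>
    have : List.range' 1 (3 + s * 0) = [1, 2, 3] := by rw [mul_zero]; decide
    rw [this]
    show ([2, 3, 1] : List ℕ).Perm [1, 2, 3]
    decide
  | succ m ih =>
    rw [range_step hs]
    refine List.Perm.trans ?_ (ih.append_right _)
    rw [List.perm_iff_count]
    intro c
    simp only [Zg, Bl, List.count_append, List.count_cons, List.count_nil]
    ring

theorem permR3 {s : ℕ} (hs : 2 ≤ s) (m : ℕ) :
    (3 :: (Zg s m ++ (Bl s m ++ [1]))).Perm (List.range' 1 (3 + s * m)) := by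
  refine List.Perm.trans ?_ (permR hs m)
  rw [List.perm_iff_count]
  intro c
  simp only [List.count_append, List.count_cons, List.count_nil]
  ring

section
variable {A : Type} [CommRing A]

theorem finH_eq (s m : ℕ) : finH (A := A) (Zg s m) = ftop (Gm s m) := by
  funext u κ
  induction m with
  | zero => simp [finH, Zg, ftop, Gm]
  | succ m ih =>
    unfold finH ftop at *
    rw [Zg, List.map_cons, List.prod_cons, ih, Gm]

open Classical in
/-- counting lists as a sum over the permutations -/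
theorem cardSum (W : List ℕ) (hW : W.Nodup) (P : List ℕ → Prop) :
    ((Nat.card {l : List ℕ // l.Perm W ∧ P l} : ℕ) : A) =
      (W.permutations'.map fun l => if P l then (1 : A) else 0).sum := by
  have h1 : Nat.card {l : List ℕ // l.Perm W ∧ P l} =
      (W.permutations'.toFinset.filter fun l => P l).card := by
    refine Nat.subtype_card _ ?_
    intro l
    rw [Finset.mem_filter, List.mem_toFinset, List.mem_permutations']
  rw [h1, Finset.card_filter, Nat.cast_sum,
    ← List.sum_toFinset _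
      ((List.permutations_perm_permutations' W).nodup_iff.1 (List.nodup_permutations W hW))]
  refine Finset.sum_congr rfl ?_
  intro l _
  split_ifs
  · exact Nat.cast_one
  · exact Nat.cast_zero

open Classical in
theorem PSchain (hCHAIN : S_CHAIN) (F : ℕ → ℕ → Bool) (W : List ℕ) (x : ℕ)
    (hW : (x :: W).Nodup) :
    PS (A := A) (phi F) (fun _ _ => 1) x W =
      ((Nat.card {l : List ℕ // l.Perm W ∧ (x :: l).IsChain (arc F)} : ℕ) : A) := by
  rw [cardSum W (List.nodup_cons.1 hW).2 fun l => (x :: l).IsChain (arc F)]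
  unfold PS
  refine congrArg List.sum (List.map_congr_left ?_)
  intro l hl
  have h1 : l.Perm W := List.mem_permutations'.1 hl
  refine (hCHAIN A F l x (fun _ => 0) ((h1.cons x).nodup_iff.2 hW)).trans ?_
  congr 1

theorem PSg (hSPACE : S_SPACE) {s : ℕ} (hs : 2 ≤ s) {Fi ext : ℕ → ℕ → Bool} (hFi : FiOk s Fi)
    (he : ∀ i j, ext i j = ext j i) (m x : ℕ) (V : List ℕ)
    (hW : (x :: (Zg s m ++ V)).Nodup) :
    PS (A := A) (phi (Fg s Fi ext)) (fun _ _ => 1) x (Zg s m ++ V) =
      PS (phi (Fg s Fi ext)) (ftop (Gm s m)) x V := by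
  rw [hSPACE A (phi (Fg s Fi ext)) (Zg s m) V x ?_ (List.nodup_cons.1 hW).2
    (List.nodup_cons.1 hW).1, finH_eq]
  intro z hz u
  have h1 : Fg s Fi ext z u = false := by
    rcases Zg_mem hz with h | ⟨j, h⟩
    · exact F_low (Or.inr h) u
    · rw [h]
      exact F_one hs hFi j u
  exact ⟨phi_false (by rw [F_symm hFi he]; exact h1), phi_false h1⟩

end

/-! ### the matrix -/

section
variable (s : ℕ) (Fi ext : ℕ → ℕ → Bool) (m : ℕ)

/-- the entries -/
def TT (F : ℕ → ℕ → Bool) (i j : ℕ) : Bool :=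
  if i < j then !F (i + 1) (j + 1) else if j < i then F (i + 1) (j + 1) else false

theorem len : (TMg s Fi ext m).length = 3 + s * m := by
  simp [TMg]

theorem en_TMg {i j : ℕ} (hi : i < 3 + s * m) (hj : j < 3 + s * m) :
    en (TMg s Fi ext m) i j = TT (Fg s Fi ext) i j := by
  unfold TMg TT
  generalize Fg s Fi ext = F
  generalize 3 + s * m = n at *
  unfold en
  simp [List.getD_eq_getElem?_getD, hi, hj]

variable {s Fi ext}

theorem tour (hFi : FiOk s Fi) (he : ∀ i j, ext i j = ext j i) : IsTour (TMg s Fi ext m) := by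
  refine ⟨?_, ?_⟩
  · intro r hr
    rw [len]
    unfold TMg at hr
    rw [List.mem_map] at hr
    obtain ⟨i, _, rfl⟩ := hr
    simp
  · intro i hi
    rw [len] at hi
    refine ⟨?_, ?_⟩
    · rw [en_TMg s Fi ext m hi hi]
      simp [TT]
    · intro j hj hij
      rw [len] at hj
      rw [en_TMg s Fi ext m hi hj, en_TMg s Fi ext m hj hi]
      unfold TT
      rcases lt_or_gt_of_ne hij with h | h
      · rw [if_pos h, if_neg (not_lt.2 h.le), if_pos h, F_symm hFi he]
      · rw [if_neg (not_lt.2 h.le), if_pos h, if_pos h, Bool.not_not, F_symm hFi he]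

theorem arc_iff {i j : ℕ} (hi : i < 3 + s * m) (hj : j < 3 + s * m) :
    en (TMg s Fi ext m) i j = true ↔ arc (Fg s Fi ext) (i + 1) (j + 1) := by
  rw [en_TMg s Fi ext m hi hj]
  unfold arc TT
  rcases lt_trichotomy i j with h | h | h
  · rw [if_pos h]
    simp [h, h.not_gt]
  · subst h
    simp
  · rw [if_neg h.not_gt, if_pos h]
    simp [h, h.not_gt]

theorem chain_iff {l : List ℕ} (hl : ∀ a ∈ l, a < 3 + s * m) :
    (l.IsChain fun i j => en (TMg s Fi ext m) i j = true) ↔
      (l.map (· + 1)).IsChain (arc (Fg s Fi ext)) := by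
  rw [List.isChain_map, List.isChain_iff_getElem, List.isChain_iff_getElem]
  constructor
  · intro h i hi
    exact (arc_iff m (hl _ (List.getElem_mem _)) (hl _ (List.getElem_mem _))).1 (h i hi)
  · intro h i hi
    exact (arc_iff m (hl _ (List.getElem_mem _)) (hl _ (List.getElem_mem _))).2 (h i hi)

theorem perm_iff (n : ℕ) (l : List ℕ) :
    l.Perm (List.range n) ↔ (l.map (· + 1)).Perm (List.range' 1 n) := by
  have h1 : List.range' 1 n = (List.range n).map (· + 1) := by
    rw [List.range'_eq_map_range]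
    refine List.map_congr_left fun a _ => ?_
    omega
  rw [h1]
  constructor
  · exact fun h => h.map _
  · intro h
    have h2 := h.map (fun a => a - 1)
    simpa [List.map_map, Function.comp_def] using h2

theorem unshift {n : ℕ} {l : List ℕ} (h : l.Perm (List.range' 1 n)) :
    (l.map (fun a => a - 1)).map (· + 1) = l := by
  rw [List.map_map]
  conv_rhs => rw [← List.map_id l]
  refine List.map_congr_left fun a ha => ?_
  have h1 : 1 ≤ a := by
    have := (List.mem_range'_1).1 (h.mem_iff.1 ha)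
    omega
  simp only [Function.comp, id]
  omega

theorem hp_eq : numHP (TMg s Fi ext m) =
    Nat.card {l : List ℕ // l.Perm (List.range' 1 (3 + s * m)) ∧
      l.IsChain (arc (Fg s Fi ext))} := by
  unfold numHP
  rw [len]
  have key : ∀ l : List ℕ, (l.Perm (List.range (3 + s * m)) ∧
      l.IsChain fun i j => en (TMg s Fi ext m) i j = true) ↔
      ((l.map (· + 1)).Perm (List.range' 1 (3 + s * m)) ∧
      (l.map (· + 1)).IsChain (arc (Fg s Fi ext))) := by
    intro l
    rw [← perm_iff]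
    constructor
    · rintro ⟨h1, h2⟩
      exact ⟨h1, (chain_iff m fun a ha => List.mem_range.1 (h1.mem_iff.1 ha)).1 h2⟩
    · rintro ⟨h1, h2⟩
      exact ⟨h1, (chain_iff m fun a ha => List.mem_range.1 (h1.mem_iff.1 ha)).2 h2⟩
  refine Nat.card_congr ⟨fun l => ⟨l.1.map (· + 1), (key l.1).1 l.2⟩,
    fun l => ⟨l.1.map (fun a => a - 1), (key _).2 (by rw [unshift l.2.1]; exact l.2)⟩, ?_, ?_⟩
  · intro l
    apply Subtype.ext
    simp [List.map_map, Function.comp_def]
  · intro l
    apply Subtype.ext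
    exact unshift l.2.1

theorem hs_eq : numHS (TMg s Fi ext m) 2 =
    Nat.card {l : List ℕ // l.Perm (List.range' 1 (3 + s * m)) ∧ l.head? = some 3 ∧
      l.IsChain (arc (Fg s Fi ext))} := by
  unfold numHS
  rw [len]
  have key : ∀ l : List ℕ, (l.Perm (List.range (3 + s * m)) ∧ l.head? = some 2 ∧
      l.IsChain fun i j => en (TMg s Fi ext m) i j = true) ↔
      ((l.map (· + 1)).Perm (List.range' 1 (3 + s * m)) ∧
      (l.map (· + 1)).head? = some 3 ∧
      (l.map (· + 1)).IsChain (arc (Fg s Fi ext))) := by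
    intro l
    rw [← perm_iff]
    have h3 : (l.map (· + 1)).head? = some 3 ↔ l.head? = some 2 := by
      cases l <;> simp
    rw [h3]
    constructor
    · rintro ⟨h1, h0, h2⟩
      exact ⟨h1, h0, (chain_iff m fun a ha => List.mem_range.1 (h1.mem_iff.1 ha)).1 h2⟩
    · rintro ⟨h1, h0, h2⟩
      exact ⟨h1, h0, (chain_iff m fun a ha => List.mem_range.1 (h1.mem_iff.1 ha)).2 h2⟩
  refine Nat.card_congr ⟨fun l => ⟨l.1.map (· + 1), (key l.1).1 l.2⟩,
    fun l => ⟨l.1.map (fun a => a - 1), (key _).2 (by rw [unshift l.2.1]; exact l.2)⟩, ?_, ?_⟩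
  · intro l
    apply Subtype.ext
    simp [List.map_map, Function.comp_def]
  · intro l
    apply Subtype.ext
    exact unshift l.2.1

end

theorem main (hCHAIN : S_CHAIN) (hSPACE : S_SPACE) (hEVG : S_EVG) : S_TG := by
  intro s Fi ext m A _ a b hs hFi he _ ha hb hN
  have h0 : ∀ u, (phi (Fg s Fi ext) 0 u : A) = 0 := fun u => phi_false (F_low (Or.inl rfl) u)
  obtain ⟨e1, e2⟩ := hEVG m s A (phi (Fg s Fi ext)) (phi Fi) a b hs (blw m hFi he) h0 ha hb hN
  rw [PQ_eq hs hFi] at e1 e2
  refine ⟨tour m hFi he, ?_, ?_⟩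
  · have hperm := permR hs m
    have hnd : (Zg s m ++ (Bl s m ++ [3, 1])).Nodup := hperm.nodup_iff.2 (List.nodup_range' ..)
    have h0' : 0 ∉ Zg s m ++ (Bl s m ++ [3, 1]) := by
      intro h
      have h2 := hperm.mem_iff.1 h
      rw [List.mem_range'_1] at h2
      omega
    have hnd0 : (0 :: (Zg s m ++ (Bl s m ++ [3, 1]))).Nodup := List.nodup_cons.2 ⟨h0', hnd⟩
    rw [← e1, ← PSg hSPACE hs hFi he m 0 _ hnd0, PSchain hCHAIN _ _ 0 hnd0, hp_eq]
    congr 1
    refine Nat.card_congr (Equiv.subtypeEquivRight ?_)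
    intro l
    constructor
    · rintro ⟨h1, h2⟩
      refine ⟨h1.trans hperm.symm, ?_⟩
      cases l with
      | nil => exact List.isChain_singleton _
      | cons v l =>
        rw [List.isChain_cons_cons]
        refine ⟨?_, h2⟩
        have hv : v ∈ List.range' 1 (3 + s * m) := h1.mem_iff.1 (List.mem_cons_self ..)
        rw [List.mem_range'_1] at hv
        exact Or.inl ⟨by omega, F_low (Or.inl rfl) v⟩
    · rintro ⟨h1, h2⟩
      exact ⟨h1.trans hperm, h2.tail⟩
  · have hperm := permR3 hs m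
    have hnd : (3 :: (Zg s m ++ (Bl s m ++ [1]))).Nodup :=
      hperm.nodup_iff.2 (List.nodup_range' ..)
    rw [← e2, ← PSg hSPACE hs hFi he m 3 _ hnd, PSchain hCHAIN _ _ 3 hnd, hs_eq]
    congr 1
    refine Nat.card_congr
      { toFun := fun l => ⟨l.1.tail, ?_⟩
        invFun := fun l => ⟨3 :: l.1, (l.2.1.cons 3).trans hperm, rfl, l.2.2⟩
        left_inv := ?_
        right_inv := ?_ }
    · obtain ⟨l, h1, h2, h3⟩ := l
      cases l with
      | nil => simp at h2
      | cons v l =>
        have hv : v = 3 := by simpa using h2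
        subst hv
        exact ⟨(List.perm_cons 3).1 (h1.trans hperm.symm), h3⟩
    · rintro ⟨l, h1, h2, h3⟩
      apply Subtype.ext
      cases l with
      | nil => simp at h2
      | cons v l =>
        have hv : v = 3 := by simpa using h2
        subst hv
        rfl
    · rintro ⟨l, h1⟩
      rfl

end Pool.Agent.W577.HMTg
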