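import Pool.Agent.W982.TA.Grid

set_option autoImplicit false

namespace Pool.Agent.W982.TA

theorem i2_ty_lt (φ : List Cl) (i j : ℕ) : ty φ i j < 8 := by
  unfold ty
  split_ifs <;> norm_num

theorem i2_patOK_side {t : ℕ} {P : List ℕ} (h : patOK t P = true) :
    (∀ y : ℕ, y < 62 → missP P (0, (y : ℤ)) = hrL t y) ∧
    (∀ x : ℕ, x < 64 → missP P ((x : ℤ), 0) = vcB t x ∧ missP P ((x : ℤ), 61) = vcT t x) := by
  unfold patOK at h
  simp only [Bool.and_eq_true, List.all_eq_true, List.mem_range, beq_iff_eq] at h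
  obtain ⟨⟨_, h1⟩, h2⟩ := h
  exact ⟨fun y hy => (h1 y hy).1, fun x hx => h2 x hx⟩

theorem i2 (h1 : TaskI1) : TaskI2 := by
  intro hP φ q hq
  obtain ⟨i, hi, j, hj, x, hx, y, hy, hm, rfl⟩ := (h1 hP φ q).1 hq
  obtain ⟨hs1, hs2⟩ := i2_patOK_side (hP (ty φ i j) (i2_ty_lt φ i j))
  have hR : nR φ = 6 * φ.length + 2 := rfl
  have hC : nC φ = φ.length + 1 := rfl
  -- first coordinate positive
  have a1 : ¬ (j = 0 ∧ x = 0) := by
    rintro ⟨rfl, rfl⟩
    have := hs1 y hy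
    rw [show ((0 : ℕ) : ℤ) = 0 from rfl] at hm
    rw [hm] at this
    unfold ty hrL at this
    split_ifs at this <;> simp_all
  have a2 : ¬ (i = 0 ∧ y = 0) := by
    rintro ⟨rfl, rfl⟩
    have := (hs2 x hx).1
    rw [show ((0 : ℕ) : ℤ) = 0 from rfl] at hm
    rw [hm] at this
    unfold ty vcB at this
    split_ifs at this <;> simp_all
  have a3 : ¬ (i = nR φ - 1 ∧ y = 61) := by
    rintro ⟨hi1, rfl⟩
    have := (hs2 x hx).2
    rw [show ((61 : ℕ) : ℤ) = 61 from rfl] at hm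
    rw [hm] at this
    have hi0 : i ≠ 0 := by omega
    unfold ty vcT at this
    split_ifs at this <;> simp_all
  unfold ibox
  rw [Finset.mem_product, Finset.mem_Ioo, Finset.mem_Ioo]
  refine ⟨⟨?_, ?_⟩, ?_, ?_⟩
  · show (0 : ℤ) < 64 * (j : ℤ) + x
    omega
  · show 64 * (j : ℤ) + x < 64 * (nC φ : ℤ) + 7
    omega
  · show (0 : ℤ) < 62 * (i : ℤ) + y
    omega
  · show 62 * (i : ℤ) + y < 62 * (nR φ : ℤ) - 1
    omega

end Pool.Agent.W982.TA
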